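import Mathlib
import Pool.Agent.H.MP_f8a8cb_gt.A

open Set Filter Topology

namespace Pool.Agent.Results.MP_f8a8cb_gt.Local

theorem result (H : Type) [Group H] [TopologicalSpace H] [IsTopologicalGroup H] [T2Space H]
    [LocallyCompactSpace H] (G : Subgroup H) (U : Set G) (hU : IsOpen U) (h1 : 1 ∈ U)
    (hw : ∃ (K : Type) (_ : TopologicalSpace K) (_ : CompactSpace K) (_ : T2Space K)
      (e : closure U → K), IsDenseEmbedding e ∧
        ∀ s : Set K, IsGδ s → s.Nonempty → ∃ x, e x ∈ s) :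
    ∃ V : Set G, IsOpen V ∧ 1 ∈ V ∧
      ∀ f : closure V → ℝ, Continuous f → ∃ C : ℝ, ∀ x, |f x| ≤ C := by
  obtain ⟨K, _, _, _, e, he, hG⟩ := hw
  exact Pool.Agent.H.MP_f8a8cb_gt.main G U hU h1 he hG

end Pool.Agent.Results.MP_f8a8cb_gt.Local
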